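import Mathlib
import Pool.Agent.H.MP_58c014_an.A

set_option autoImplicit false

namespace Pool.Agent.Results.MP_58c014_an.Decreasing

open MeasureTheory Set Pool.Agent.H.MP_58c014_an

noncomputable def P (n : ℕ) (x : Fin n → ℝ) : ℝ :=
  Real.exp (-∑ j, x j) * ∏ k, ∏ j ∈ Finset.Ioi k, (x j - x k) ^ 2

noncomputable def F (n : ℕ) (t : ℝ) : ℝ :=
  ∫ x in Ici (0 : Fin n → ℝ), P n x * ∏ j, (x j + t) ^ (-(1 / 2) : ℝ)

noncomputable def G (n : ℕ) (t : ℝ) : ℝ :=
  ∫ x in Ici (0 : Fin n → ℝ), P n x * ∏ j, (x j + t) ^ (1 / 2 : ℝ)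

noncomputable def H (n : ℕ) (t : ℝ) : ℝ :=
  ∫ x in Ici (0 : Fin n → ℝ), ∫ y in Ici (0 : Fin n → ℝ),
    P n x * P n y * (∑ j, (1 / (x j + t) - 1 / (y j + t))) *
      ∏ j, ((x j + t) / (y j + t)) ^ (1 / 2 : ℝ)

lemma res (n : ℕ) : (volume : Measure (Fin n → ℝ)).restrict (Ici 0)
    = volume.restrict {x | ∀ j, 0 < x j} := by
  have e : {x : Fin n → ℝ | ∀ j, 0 < x j} = Set.univ.pi (fun j => Ioi ((0 : Fin n → ℝ) j)) := by
    ext x; simp
  rw [e]
  exact (Measure.restrict_congr_set Measure.univ_pi_Ioi_ae_eq_Ici).symm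

lemma b1 {x t : ℝ} (hx : 0 < x) (ht : 0 ≤ t) :
    (x + t) ^ (-(1 / 2) : ℝ) ≤ (1 + x) ^ 2 * x ^ (-(1 / 2) : ℝ) := by
  refine (Real.rpow_le_rpow_of_nonpos hx (by linarith) (by norm_num)).trans ?_
  exact le_mul_of_one_le_left (by positivity) (by nlinarith)

lemma b2 {x t : ℝ} (hx : 0 < x) (ht : 0 ≤ t) :
    (x + t) ^ (1 / 2 : ℝ) ≤ (1 + t) * ((1 + x) ^ 2 * x ^ (-(1 / 2) : ℝ)) := by
  have h1 : ∀ u : ℝ, 0 ≤ u → u ^ (1 / 2 : ℝ) ≤ 1 + u := fun u hu => by
    rw [← Real.sqrt_eq_rpow]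
    exact Real.sqrt_le_iff.2 ⟨by linarith, by nlinarith⟩
  have h2 : 1 ≤ (1 + x) * x ^ (-(1 / 2) : ℝ) := by
    rw [Real.rpow_neg hx.le, ← div_eq_mul_inv, le_div_iff₀ (by positivity), one_mul]
    exact h1 x hx.le
  refine (h1 _ (by linarith)).trans ?_
  have h3 : 1 + (x + t) ≤ (1 + t) * (1 + x) := by nlinarith
  refine h3.trans (mul_le_mul_of_nonneg_left ?_ (by linarith))
  nlinarith

lemma sp {ι : Type*} (s : Finset ι) (u v : ι → ℝ) (h0 : ∀ i, 0 ≤ v i) (h : ∀ i, v i ≤ u i)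
    (h1 : ∀ i, u i ≤ 1) : ∑ i ∈ s, v i - ∏ i ∈ s, v i ≤ ∑ i ∈ s, u i - ∏ i ∈ s, u i := by
  classical
  induction s using Finset.induction_on with
  | empty => simp
  | insert j s hj ih =>
    rw [Finset.sum_insert hj, Finset.sum_insert hj, Finset.prod_insert hj, Finset.prod_insert hj]
    have a1 : ∏ i ∈ s, v i ≤ ∏ i ∈ s, u i := Finset.prod_le_prod (fun i _ => h0 i) (fun i _ => h i)
    have a2 : ∏ i ∈ s, v i ≤ 1 := Finset.prod_le_one (fun i _ => h0 i) (fun i _ => (h i).trans (h1 i))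
    nlinarith [mul_nonneg (sub_nonneg.2 (h1 j)) (sub_nonneg.2 a1),
      mul_nonneg (sub_nonneg.2 (h j)) (sub_nonneg.2 a2)]

lemma anti (n : ℕ) : AntitoneOn (fun t => F n t * G n t) (Ici 0) := by
  intro s hs t ht hst
  have hs : 0 ≤ s := hs
  have ht : 0 ≤ t := ht
  simp only [F, G, res]
  rw [mul_comm (∫ x in {x | ∀ j, 0 < x j}, P n x * ∏ j, (x j + s) ^ (-(1 / 2) : ℝ))]
  refine FF (P n) (fun _ => rfl) _ _ _ _ (by fun_prop) (by fun_prop) (by fun_prop) (by fun_prop)
    (fun x σ => Equiv.prod_comp σ (fun j => (x j + t) ^ (-(1 / 2) : ℝ)))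
    (fun x σ => Equiv.prod_comp σ (fun j => (x j + t) ^ (1 / 2 : ℝ)))
    (fun x σ => Equiv.prod_comp σ (fun j => (x j + s) ^ (1 / 2 : ℝ)))
    (fun x σ => Equiv.prod_comp σ (fun j => (x j + s) ^ (-(1 / 2) : ℝ)))
    (fun x hx => Finset.prod_nonneg (fun j _ => Real.rpow_nonneg (by linarith [hx j]) _))
    (fun x hx => Finset.prod_nonneg (fun j _ => Real.rpow_nonneg (by linarith [hx j]) _))
    (fun x hx => Finset.prod_nonneg (fun j _ => Real.rpow_nonneg (by linarith [hx j]) _))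
    (fun x hx => Finset.prod_nonneg (fun j _ => Real.rpow_nonneg (by linarith [hx j]) _))
    (dom (P n) (fun _ => rfl) _ (by fun_prop) ((1 + s) ^ n) (fun x hx => ?_))
    (dom (P n) (fun _ => rfl) _ (by fun_prop) 1 (fun x hx => ?_)) (fun x y hx hy => ?_)
  · rw [abs_of_nonneg (Finset.prod_nonneg (fun j _ => Real.rpow_nonneg (by linarith [hx j]) _))]
    refine (Finset.prod_le_prod (fun j _ => Real.rpow_nonneg (by linarith [hx j]) _)
      (fun j _ => b2 (hx j) hs)).trans_eq ?_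
    rw [Finset.prod_mul_distrib]; simp
  · rw [abs_of_nonneg (Finset.prod_nonneg (fun j _ => Real.rpow_nonneg (by linarith [hx j]) _)),
      one_mul]
    exact Finset.prod_le_prod (fun j _ => Real.rpow_nonneg (by linarith [hx j]) _)
      (fun j _ => b1 (hx j) hs)
  · rw [← Finset.prod_mul_distrib, ← Finset.prod_mul_distrib]
    refine Finset.prod_le_prod (fun j _ => mul_nonneg (Real.rpow_nonneg (by linarith [hx j]) _)
      (Real.rpow_nonneg (by linarith [hy j]) _)) (fun j _ => ?_)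
    have p1 := hx j
    have p2 := hy j
    have p3 : 0 < min (x j) (y j) := lt_min p1 p2
    have p4 : 0 < max (x j) (y j) := lt_max_of_lt_left p1
    simp only [Pi.sup_apply, Pi.inf_apply]
    rw [Real.rpow_neg (by linarith), Real.rpow_neg (by linarith), mul_comm, ← div_eq_mul_inv,
      ← div_eq_mul_inv, ← Real.div_rpow (by linarith) (by linarith),
      ← Real.div_rpow (by linarith) (by linarith)]
    refine Real.rpow_le_rpow (by positivity) ?_ (by norm_num)
    rw [div_le_div_iff₀ (by linarith) (by linarith)]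
    rcases le_total (x j) (y j) with a | a <;>
      simp only [max_eq_left, max_eq_right, min_eq_left, min_eq_right, a] <;> nlinarith

lemma neg (n : ℕ) (hn : 1 ≤ n) (t : ℝ) (ht : 0 < t) : H n t < 0 := by
  have mO : MeasurableSet {x : Fin n → ℝ | ∀ j, 0 < x j} := by measurability
  have hP : ∀ x, P n x = Real.exp (-∑ j, x j) * ∏ k, ∏ j ∈ Finset.Ioi k, (x j - x k) ^ 2 :=
    fun _ => rfl
  let a : (Fin n → ℝ) → ℝ := fun x => ∏ j, (x j + t) ^ (1 / 2 : ℝ)
  let U : (Fin n → ℝ) → ℝ := fun x => ∏ j, t / (x j + t)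
  let T : (Fin n → ℝ) → ℝ := fun x => ∑ j, t / (x j + t)
  have ma : Measurable a := by fun_prop
  have mU : Measurable U := by fun_prop
  have mT : Measurable T := by fun_prop
  have sa : ∀ x (σ : Equiv.Perm (Fin n)), a (x ∘ σ) = a x := fun x σ =>
    Equiv.prod_comp σ (fun j => (x j + t) ^ (1 / 2 : ℝ))
  have sU : ∀ x (σ : Equiv.Perm (Fin n)), U (x ∘ σ) = U x := fun x σ =>
    Equiv.prod_comp σ (fun j => t / (x j + t))
  have sT : ∀ x (σ : Equiv.Perm (Fin n)), T (x ∘ σ) = T x := fun x σ =>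
    Equiv.sum_comp σ (fun j => t / (x j + t))
  have a0 : ∀ x, (∀ j, 0 < x j) → 0 < a x := fun x hx =>
    Finset.prod_pos (fun j _ => Real.rpow_pos_of_pos (by linarith [hx j]) _)
  have amono : ∀ x y, (∀ j, 0 < x j) → x ≤ y → a x ≤ a y := fun x y hx hxy =>
    Finset.prod_le_prod (fun j _ => Real.rpow_nonneg (by linarith [hx j]) _)
      (fun j _ => Real.rpow_le_rpow (by linarith [hx j]) (by linarith [hxy j]) (by norm_num))
  have u0 : ∀ x : ℝ, 0 < x → 0 < t / (x + t) := fun x hx => by positivity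
  have u1 : ∀ x : ℝ, 0 < x → t / (x + t) ≤ 1 := fun x hx => by
    rw [div_le_one (by linarith)]; linarith
  have U0 : ∀ x, (∀ j, 0 < x j) → 0 < U x := fun x hx => Finset.prod_pos (fun j _ => u0 _ (hx j))
  have U1 : ∀ x, (∀ j, 0 < x j) → U x ≤ 1 := fun x hx =>
    Finset.prod_le_one (fun j _ => (u0 _ (hx j)).le) (fun j _ => u1 _ (hx j))
  have T1 : ∀ x, (∀ j, 0 < x j) → T x ≤ n := fun x hx => by
    have := Finset.sum_le_card_nsmul Finset.univ (fun j => t / (x j + t)) 1
      (fun j _ => u1 _ (hx j))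
    simpa using this
  have UT : ∀ x, (∀ j, 0 < x j) → U x ≤ T x := fun x hx => by
    let i : Fin n := ⟨0, by omega⟩
    refine le_trans ?_ (Finset.single_le_sum (f := fun j => t / (x j + t))
      (fun j _ => (u0 _ (hx j)).le) (Finset.mem_univ i))
    simp only [U]
    rw [← Finset.mul_prod_erase _ _ (Finset.mem_univ i)]
    exact mul_le_of_le_one_right (u0 _ (hx i)).le
      (Finset.prod_le_one (fun j _ => (u0 _ (hx j)).le) (fun j _ => u1 _ (hx j)))
  have Sant : ∀ x y, (∀ j, 0 < x j) → x ≤ y → T y - U y ≤ T x - U x := fun x y hx hxy =>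
    sp _ _ _ (fun j => (u0 _ ((hx j).trans_le (hxy j))).le)
      (fun j => div_le_div_of_nonneg_left ht.le (by linarith [hx j]) (by linarith [hxy j]))
      (fun j => u1 _ (hx j))
  have aU : ∀ x, (∀ j, 0 < x j) → a x * U x = t ^ n * (a x)⁻¹ := fun x hx => by
    rw [eq_mul_inv_iff_mul_eq₀ (a0 x hx).ne']
    simp only [a, U]
    rw [← Finset.prod_mul_distrib, ← Finset.prod_mul_distrib,
      show t ^ n = ∏ _j : Fin n, t by simp]
    refine Finset.prod_congr rfl (fun j _ => ?_)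
    have : 0 < x j + t := by linarith [hx j]
    rw [mul_right_comm, ← Real.rpow_add this]
    norm_num
    field_simp
  have ia : ∀ g : (Fin n → ℝ) → ℝ, Measurable g → ∀ C : ℝ, (∀ x, (∀ j, 0 < x j) → |g x| ≤ C) →
      IntegrableOn (fun x => P n x * (a x * g x)) {x | ∀ j, 0 < x j} := by
    intro g mg C hg
    refine dom (P n) hP _ (ma.mul mg) (C * (1 + t) ^ n) (fun x hx => ?_)
    rw [abs_mul, abs_of_pos (a0 x hx), mul_comm, mul_assoc]
    refine mul_le_mul (hg x hx) ?_ (a0 x hx).le ((abs_nonneg _).trans (hg x hx))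
    refine (Finset.prod_le_prod (fun j _ => Real.rpow_nonneg (by linarith [hx j]) _)
      (fun j _ => b2 (hx j) ht.le)).trans_eq ?_
    rw [Finset.prod_mul_distrib]; simp
  have ib : ∀ g : (Fin n → ℝ) → ℝ, Measurable g → ∀ C : ℝ, (∀ x, (∀ j, 0 < x j) → |g x| ≤ C) →
      IntegrableOn (fun x => P n x * ((a x)⁻¹ * g x)) {x | ∀ j, 0 < x j} := by
    intro g mg C hg
    refine dom (P n) hP _ (ma.inv.mul mg) C (fun x hx => ?_)
    rw [abs_mul, abs_of_pos (inv_pos.2 (a0 x hx)), mul_comm]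
    refine mul_le_mul (hg x hx) ?_ (inv_pos.2 (a0 x hx)).le ((abs_nonneg _).trans (hg x hx))
    simp only [a]
    rw [← Finset.prod_inv_distrib]
    refine Finset.prod_le_prod (fun j _ => inv_nonneg.2 (Real.rpow_nonneg (by linarith [hx j]) _))
      (fun j _ => ?_)
    rw [← Real.rpow_neg (by linarith [hx j])]
    exact b1 (hx j) ht.le
  have c1 : ∀ x : Fin n → ℝ, (∀ j, 0 < x j) → |(1 : ℝ)| ≤ 1 := fun _ _ => by simp
  have cU : ∀ x, (∀ j, 0 < x j) → |U x| ≤ 1 := fun x hx => by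
    rw [abs_of_pos (U0 x hx)]; exact U1 x hx
  have cT : ∀ x, (∀ j, 0 < x j) → |T x| ≤ n := fun x hx => by
    rw [abs_of_pos ((U0 x hx).trans_le (UT x hx))]; exact T1 x hx
  have ia1 := ia _ measurable_const 1 c1
  have iaU := ia _ mU 1 cU
  have iaT := ia _ mT n cT
  have ib1 := ib _ measurable_const 1 c1
  have ibU := ib _ mU 1 cU
  have ibT := ib _ mT n cT
  set A1 := ∫ x in {x | ∀ j, 0 < x j}, P n x * (a x * 1) with hA1
  set AU := ∫ x in {x | ∀ j, 0 < x j}, P n x * (a x * U x) with hAU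
  set AT := ∫ x in {x | ∀ j, 0 < x j}, P n x * (a x * T x) with hAT
  set B1 := ∫ x in {x | ∀ j, 0 < x j}, P n x * ((a x)⁻¹ * 1) with hB1
  set BU := ∫ x in {x | ∀ j, 0 < x j}, P n x * ((a x)⁻¹ * U x) with hBU
  set BT := ∫ x in {x | ∀ j, 0 < x j}, P n x * ((a x)⁻¹ * T x) with hBT
  have eH : H n t = t⁻¹ * (AT * B1 - A1 * BT) := by
    simp only [H, res]
    have inner : ∀ x ∈ {x : Fin n → ℝ | ∀ j, 0 < x j}, ∫ y in {x | ∀ j, 0 < x j},
        P n x * P n y * (∑ j, (1 / (x j + t) - 1 / (y j + t))) *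
          ∏ j, ((x j + t) / (y j + t)) ^ (1 / 2 : ℝ)
        = t⁻¹ * (P n x * (a x * T x) * B1 - P n x * (a x * 1) * BT) := by
      intro x hx
      rw [hB1, hBT, ← integral_const_mul, ← integral_const_mul,
        ← integral_sub (ib1.const_mul _) (ibT.const_mul _), ← integral_const_mul]
      refine setIntegral_congr_fun mO (fun y hy => ?_)
      have e1 : ∏ j, ((x j + t) / (y j + t)) ^ (1 / 2 : ℝ) = a x * (a y)⁻¹ := by
        simp only [a]
        rw [← div_eq_mul_inv, ← Finset.prod_div_distrib]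
        exact Finset.prod_congr rfl (fun j _ =>
          Real.div_rpow (by linarith [hx j]) (by linarith [hy j]) _)
      have e2 : ∑ j, (1 / (x j + t) - 1 / (y j + t)) = t⁻¹ * (T x - T y) := by
        simp only [T]
        rw [← Finset.sum_sub_distrib, Finset.mul_sum]
        refine Finset.sum_congr rfl (fun j _ => ?_)
        field_simp
      rw [e1, e2]
      ring
    rw [setIntegral_congr_fun mO inner, integral_const_mul,
      integral_sub (iaT.mul_const _) (ia1.mul_const _), integral_mul_const, integral_mul_const]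
  have k1 : (AT - AU) * B1 ≤ A1 * (BT - BU) := by
    have e1 : AT - AU = ∫ x in {x | ∀ j, 0 < x j}, P n x * (a x * (T x - U x)) := by
      rw [← integral_sub iaT iaU]; congr 1; funext x; ring
    have e2 : BT - BU = ∫ x in {x | ∀ j, 0 < x j}, P n x * ((a x)⁻¹ * (T x - U x)) := by
      rw [← integral_sub ibT ibU]; congr 1; funext x; ring
    rw [e1, e2]
    refine FF (P n) hP _ _ _ _ (ma.mul (mT.sub mU)) (ma.inv.mul measurable_const)
      (ma.mul measurable_const) (ma.inv.mul (mT.sub mU))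
      (fun x σ => by simp only [sa, sU, sT]) (fun x σ => by simp only [sa])
      (fun x σ => by simp only [sa]) (fun x σ => by simp only [sa, sU, sT])
      (fun x hx => mul_nonneg (a0 x hx).le (sub_nonneg.2 (UT x hx)))
      (fun x hx => mul_nonneg (inv_pos.2 (a0 x hx)).le zero_le_one)
      (fun x hx => mul_nonneg (a0 x hx).le zero_le_one)
      (fun x hx => mul_nonneg (inv_pos.2 (a0 x hx)).le (sub_nonneg.2 (UT x hx))) ia1
      ((ibT.sub ibU).congr (Filter.Eventually.of_forall (fun x => by simp only [Pi.sub_apply]; ring)))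
      (fun x y hx hy => ?_)
    have pi : ∀ j, 0 < (x ⊓ y) j := fun j => lt_min (hx j) (hy j)
    have q1 := amono x (x ⊔ y) hx le_sup_left
    have q2 : (a y)⁻¹ ≤ (a (x ⊓ y))⁻¹ := inv_anti₀ (a0 _ pi) (amono _ _ pi inf_le_right)
    have q3 := Sant (x ⊓ y) x pi inf_le_left
    have q4 := sub_nonneg.2 (UT x hx)
    calc a x * (T x - U x) * ((a y)⁻¹ * 1) = a x * ((a y)⁻¹ * (T x - U x)) := by ring
      _ ≤ a (x ⊔ y) * ((a (x ⊓ y))⁻¹ * (T (x ⊓ y) - U (x ⊓ y))) :=
        mul_le_mul q1 (mul_le_mul q2 q3 q4 (inv_pos.2 (a0 _ pi)).le)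
          (mul_nonneg (inv_pos.2 (a0 _ hy)).le q4) ((a0 x hx).le.trans q1)
      _ = _ := by ring
  have eAU : AU = t ^ n * B1 := by
    rw [hAU, hB1, ← integral_const_mul]
    refine setIntegral_congr_fun mO (fun x hx => ?_)
    rw [aU x hx]; ring
  have pos : ∀ g : (Fin n → ℝ) → ℝ, ContinuousOn g {x | ∀ j, 0 < x j} →
      (∀ x, (∀ j, 0 < x j) → 0 ≤ g x) →
      IntegrableOn (fun x => P n x * (a x * g x)) {x | ∀ j, 0 < x j} →
      (∃ x, (∀ j, 0 < x j) ∧ Function.Injective x ∧ g x ≠ 0) →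
      0 < ∫ x in {x | ∀ j, 0 < x j}, P n x * (a x * g x) := by
    rintro g cg g0 ig ⟨x, hx, hxi, hgx⟩
    have oO : IsOpen {x : Fin n → ℝ | ∀ j, 0 < x j} := by
      rw [Set.ofPred_forall]
      exact isOpen_iInter_of_finite (fun j => isOpen_lt continuous_const (continuous_apply j))
    rw [setIntegral_pos_iff_support_of_nonneg_ae (ae_restrict_of_forall_mem mO (fun y hy =>
      mul_nonneg (P_nonneg _ hP y) (mul_nonneg (a0 y hy).le (g0 y hy)))) ig]
    have o2 : IsOpen ({x : Fin n → ℝ | ∀ j, 0 < x j} ∩ (fun x => P n x * g x) ⁻¹' {0}ᶜ) :=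
      ((P_cont _ hP).continuousOn.mul cg).isOpen_inter_preimage oO isOpen_compl_singleton
    refine (o2.measure_pos volume ⟨x, hx, mul_ne_zero (P_pos _ hP x hxi).ne' hgx⟩).trans_le
      (measure_mono (fun y hy => ⟨?_, hy.1⟩))
    have := mul_ne_zero_iff.1 hy.2
    exact mul_ne_zero this.1 (mul_ne_zero (a0 y hy.1).ne' this.2)
  have x1 : ∀ c : ℝ, 0 < c → (∀ j : Fin n, 0 < c * ((j : ℝ) + 1)) ∧
      Function.Injective (fun j : Fin n => c * ((j : ℝ) + 1)) := fun c hc =>
    ⟨fun j => by positivity, fun i j h => by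
      have := mul_left_cancel₀ hc.ne' h
      exact Fin.ext (by exact_mod_cast add_right_cancel this)⟩
  have pA : 0 < A1 := pos _ continuousOn_const (fun _ _ => zero_le_one) ia1
    ⟨_, (x1 1 one_pos).1, (x1 1 one_pos).2, one_ne_zero⟩
  have k2 : AU * B1 < A1 * BU := by
    set l := AU / A1 with hl
    have eq : ∀ x ∈ {x : Fin n → ℝ | ∀ j, 0 < x j}, P n x * (a x * (l - U x) ^ 2)
        = l ^ 2 * (P n x * (a x * 1)) - 2 * l * (P n x * (a x * U x))
          + t ^ n * (P n x * ((a x)⁻¹ * U x)) := by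
      intro x hx
      have := aU x hx
      linear_combination (P n x * U x) * this
    have cUc : ContinuousOn U {x | ∀ j, 0 < x j} :=
      continuousOn_finsetProd _ (fun j _ => continuousOn_const.div (by fun_prop)
        (fun x hx => by have := hx j; positivity))
    have h := pos (fun x => (l - U x) ^ 2) ((continuousOn_const.sub cUc).pow 2)
      (fun _ _ => sq_nonneg _) (ia _ ((measurable_const.sub mU).pow_const 2) ((|l| + 1) ^ 2)
        (fun x hx => by
          rw [abs_pow]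
          exact pow_le_pow_left₀ (abs_nonneg _) ((abs_sub _ _).trans (by linarith [cU x hx])) 2)) ?_
    · rw [setIntegral_congr_fun mO eq, integral_add
        (f := fun x => l ^ 2 * (P n x * (a x * 1)) - 2 * l * (P n x * (a x * U x)))
        ((ia1.const_mul _).sub (iaU.const_mul _)) (ibU.const_mul _), integral_sub (ia1.const_mul _) (iaU.const_mul _), integral_const_mul,
        integral_const_mul, integral_const_mul, ← hA1, ← hAU, ← hBU] at h
      have e : AU = l * A1 := by rw [hl]; field_simp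
      have tn : 0 < t ^ n := by positivity
      refine lt_of_mul_lt_mul_left ?_ tn.le
      rw [← mul_assoc, mul_comm (t ^ n) AU, mul_assoc, ← eAU]
      have := mul_pos h pA
      rw [e] at this ⊢
      nlinarith
    · have lt : U (fun j => 2 * ((j : ℝ) + 1)) < U (fun j => 1 * ((j : ℝ) + 1)) := by
        refine Finset.prod_lt_prod_of_nonempty (fun j _ => by positivity) (fun j _ => ?_)
          ⟨⟨0, by omega⟩, Finset.mem_univ _⟩
        have : (0 : ℝ) ≤ j := by positivity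
        exact div_lt_div_of_pos_left ht (by positivity) (by linarith)
      by_cases h1 : l = U (fun j => 1 * ((j : ℝ) + 1))
      · exact ⟨_, (x1 2 two_pos).1, (x1 2 two_pos).2, pow_ne_zero 2 (by rw [h1]; linarith)⟩
      · exact ⟨_, (x1 1 one_pos).1, (x1 1 one_pos).2, pow_ne_zero 2 (sub_ne_zero.2 h1)⟩
  rw [eH]
  exact mul_neg_of_pos_of_neg (inv_pos.2 ht) (by nlinarith)

theorem result (n : ℕ) (hn : 2 ≤ n) :
    AntitoneOn (fun t => F n t * G n t) (Ici 0) ∧ ∀ t : ℝ, 0 < t → H n t < 0 :=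
  ⟨anti n, neg n (by omega)⟩

end Pool.Agent.Results.MP_58c014_an.Decreasing
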